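import Mathlib

/-! Definitions for the uniform theorem on translates in the torus. -/

namespace Pool.Agent.Lib.MP_a325a5_ag.Unif

open MvPolynomial WithZero

universe u w z

/-- The element `x` of an extension field of `K` is integral over the valuation ring of the
valuation `v` of `K`. -/
def IntegralAt {K : Type u} {E : Type w} [Field K] [Field E] [Algebra K E] (v : Valuation K ℤᵐ⁰)
    (x : E) : Prop :=
  ∃ p : Polynomial K, p.Monic ∧ (∀ i, v (p.coeff i) ≤ 1) ∧ Polynomial.aeval x p = 0

/-- The element `x` of an extension field of `K` is not zero and both `x` and `x⁻¹` are integral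
over the valuation rings of all the valuations `v j` of `K`: it is algebraic over `K` and a unit at
all places above the `v j`. -/
def UnitAbove {K : Type u} {E : Type w} [Field K] [Field E] [Algebra K E] {N : ℕ}
    (v : Fin N → Valuation K ℤᵐ⁰) (x : E) : Prop :=
  x ≠ 0 ∧ ∀ j, IntegralAt (v j) x ∧ IntegralAt (v j) x⁻¹

/-- Let `K ⊆ Ω ⊆ E` be fields, let `y` be a point of the torus with coordinates in `E` and let `Z`
be the locus of `y` over `Ω` (the closed irreducible subvariety of the torus over `Ω` with generic
point `y`).  The definition says that `dim Z + codim H ≤ m` for every subtorus translate `H`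
containing `Z` that is defined by equations `x ^ λ = w` with `w` an element of `E` that is
algebraic over `K` and a unit at all places above the `v j`, in particular for every torsion
coset `H`: if the coordinates `y t`, `t ∈ S`, are algebraically independent over `Ω` and the
monomials `y ^ (Λ i)`, `i < h`, are such units for linearly independent exponent vectors `Λ i`,
then `S.card + h ≤ m`. -/
def LocusBound {n N : ℕ} {K : Type u} (Ω : Type w) {E : Type z} [Field K] [Field Ω] [Field E]
    [Algebra Ω E] [Algebra K E] (v : Fin N → Valuation K ℤᵐ⁰) (m : ℕ) (y : Fin n → Eˣ) : Prop :=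
  ∀ (S : Finset (Fin n)) (h : ℕ) (Λ : Fin h → (Fin n → ℤ)),
    AlgebraicIndependent Ω (fun t : {t // t ∈ S} => ((y t : Eˣ) : E)) →
    LinearIndependent ℤ Λ → (∀ i, UnitAbove v ((∏ t, y t ^ (Λ i t) : Eˣ) : E)) →
    S.card + h ≤ m

/-- Let `X` be the closed subset of the torus over `Ω` cut out by the ideal `I`, let `v j` be
valuations on a subfield `K` of `Ω` and let `g` be a point of the torus over `K`.  The definition
says that the translate `g X` has no atypical subvarieties: all points `y = g x`, `x` a point of
`X` with coordinates in an extension field `E` of `Ω`, satisfy `LocusBound Ω v m y`. -/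
def TranslateTypical {n N : ℕ} {K : Type u} {Ω : Type w} [Field K] [Field Ω] [Algebra K Ω]
    (v : Fin N → Valuation K ℤᵐ⁰) (I : Ideal (MvPolynomial (Fin n) Ω)) (g : Fin n → Kˣ)
    (m : ℕ) : Prop :=
  ∀ (E : Type z) [Field E] [Algebra Ω E] [Algebra K E] [IsScalarTower K Ω E]
    (x y : Fin n → Eˣ), (∀ f ∈ I, aeval (fun t => (x t : E)) f = 0) →
    (∀ t, (y t : E) = algebraMap K E (g t) * x t) → LocusBound Ω v m y

/-- All projections of the zero set of the ideal `I` to `d + 1` of the coordinates lie on
hypersurfaces of degree at most `r`: the ideal `I` contains a nonzero polynomial of degree at most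
`r` in any given `d + 1` of the variables. -/
def ProjectionDegreeLE {Ω : Type w} [Field Ω] {n : ℕ} (I : Ideal (MvPolynomial (Fin n) Ω))
    (d r : ℕ) : Prop :=
  ∀ S : Finset (Fin n), S.card = d + 1 → ∃ Q : MvPolynomial {t // t ∈ S} Ω, Q ≠ 0 ∧
    Q.totalDegree ≤ r ∧ rename Subtype.val Q ∈ I

/-- The same with the additional condition that all nonzero coefficients of the equations of the
hypersurfaces are algebraic over `K` and units at all places above the valuations `v j`. -/
def UnitProjections {K : Type u} {Ω : Type w} [Field K] [Field Ω] [Algebra K Ω] {n N : ℕ}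
    (v : Fin N → Valuation K ℤᵐ⁰) (I : Ideal (MvPolynomial (Fin n) Ω)) (d r : ℕ) : Prop :=
  ∀ S : Finset (Fin n), S.card = d + 1 → ∃ Q : MvPolynomial {t // t ∈ S} Ω, Q ≠ 0 ∧
    Q.totalDegree ≤ r ∧ rename Subtype.val Q ∈ I ∧ ∀ m ∈ Q.support, UnitAbove v (Q.coeff m)

/-- The valuation matrix of a point `g` of the torus over `K`: its entry at `(j, t)` is the
logarithm of the valuation `v j` of the coordinate `g t`. -/
noncomputable def valMatrix {K : Type u} [Field K] {N n : ℕ} (v : Fin N → Valuation K ℤᵐ⁰)
    (g : Fin n → Kˣ) : Fin N × Fin n → ℚ :=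
  fun jt => ((log (v jt.1 (g jt.2 : K)) : ℤ) : ℚ)

end Pool.Agent.Lib.MP_a325a5_ag.Unif
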