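import Pool.Agent.Lib.MP_a325a5_ag.Unif.Defs
import Pool.Agent.Lib.MP_a325a5_ag.Extend

/-! Extension of valuations, containing the image of the valuation ring; units above. -/

namespace Pool.Agent.Lib.MP_a325a5_ag.Unif

open MvPolynomial WithZero

universe u w z

/-- An element integral over a valuation ring lies in every dominating valuation ring. -/
theorem IntegralAt.mem {K : Type u} {E : Type w} [Field K] [Field E] [Algebra K E]
    {v : Valuation K ℤᵐ⁰} {x : E} (hx : IntegralAt v x) (A : ValuationSubring E)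
    (hA : ∀ c : K, v c ≤ 1 → algebraMap K E c ∈ A) : x ∈ A := by
  obtain ⟨p, hp, hc, hroot⟩ := hx
  by_contra hxA
  have hxinv : x⁻¹ ∈ A := (A.mem_or_inv_mem x).resolve_left hxA
  have hx0 : x ≠ 0 := by
    rintro rfl
    exact hxA A.zero_mem
  obtain ⟨n, hn⟩ : ∃ n, p.natDegree = n + 1 := by
    refine Nat.exists_eq_succ_of_ne_zero fun h => ?_
    rw [hp.natDegree_eq_zero.mp h, map_one] at hroot
    exact one_ne_zero hroot
  rw [Polynomial.aeval_eq_sum_range, hn, Finset.sum_range_succ] at hroot
  have hlead : p.coeff (n + 1) = 1 := by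
    rw [← hn]
    exact hp
  rw [hlead, one_smul] at hroot
  have h2 : x ^ (n + 1) = -∑ i ∈ Finset.range (n + 1), p.coeff i • x ^ i :=
    eq_neg_of_add_eq_zero_right hroot
  have h1 : x = -∑ i ∈ Finset.range (n + 1), p.coeff i • (x⁻¹) ^ (n - i) := by
    calc x = x ^ (n + 1) * (x⁻¹) ^ n := by
          rw [pow_succ', mul_assoc, ← mul_pow, mul_inv_cancel₀ hx0, one_pow, mul_one]
      _ = (-∑ i ∈ Finset.range (n + 1), p.coeff i • x ^ i) * (x⁻¹) ^ n := by rw [h2]
      _ = -∑ i ∈ Finset.range (n + 1), p.coeff i • (x ^ i * (x⁻¹) ^ n) := by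
          rw [neg_mul, Finset.sum_mul]
          simp only [smul_mul_assoc]
      _ = -∑ i ∈ Finset.range (n + 1), p.coeff i • (x⁻¹) ^ (n - i) := by
          congr 1
          refine Finset.sum_congr rfl fun i hi => ?_
          have hi' : i ≤ n := Nat.lt_succ_iff.mp (Finset.mem_range.mp hi)
          obtain ⟨k, rfl⟩ := Nat.exists_eq_add_of_le hi'
          rw [Nat.add_sub_cancel_left, pow_add x⁻¹, ← mul_assoc, ← mul_pow, mul_inv_cancel₀ hx0,
            one_pow, one_mul]
  have h5 : -∑ i ∈ Finset.range (n + 1), p.coeff i • (x⁻¹) ^ (n - i) ∈ A := by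
    refine A.neg_mem _ ?_
    refine A.toSubring.sum_mem fun i _ => ?_
    rw [Algebra.smul_def]
    exact A.mul_mem _ _ (hA _ (hc i)) (A.toSubring.pow_mem hxinv _)
  rw [← h1] at h5
  exact hxA h5

/-- An element that is a unit above all the valuations is a unit of every valuation ring of the
extension field containing the valuation ring of `v j`. -/
theorem UnitAbove.valuation_eq_one {K : Type u} {E : Type w} [Field K] [Field E] [Algebra K E]
    {N : ℕ} {v : Fin N → Valuation K ℤᵐ⁰} {x : E} (hx : UnitAbove v x) (j : Fin N)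
    (A : ValuationSubring E) (hA : ∀ c : K, v j c ≤ 1 → algebraMap K E c ∈ A) :
    A.valuation x = 1 := by
  have h1 : A.valuation x ≤ 1 := (A.valuation_le_one_iff x).mpr ((hx.2 j).1.mem A hA)
  have h2 : A.valuation x⁻¹ ≤ 1 := (A.valuation_le_one_iff _).mpr ((hx.2 j).2.mem A hA)
  have h3 : A.valuation x ≠ 0 := (Valuation.ne_zero_iff _).mpr hx.1
  rw [map_inv₀] at h2
  exact le_antisymm h1 ((inv_le_one₀ (zero_lt_iff.mpr h3)).mp h2)

/-- Such elements are algebraic. -/
theorem IntegralAt.isAlgebraic {K : Type u} {E : Type w} [Field K] [Field E] [Algebra K E]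
    {v : Valuation K ℤᵐ⁰} {x : E} (hx : IntegralAt v x) : IsAlgebraic K x := by
  obtain ⟨p, hp, -, hroot⟩ := hx
  exact ⟨p, hp.ne_zero, hroot⟩

/-- Extension of a rational valued homomorphism on `Kˣ` vanishing on the units of a valuation ring
to the units of an extension field, with algebraically independent elements of value zero. -/
theorem exists_extend' {K : Type u} {Ω : Type w} [Field K] [Field Ω] [Algebra K Ω]
    (R : ValuationSubring K) (l : Additive Kˣ →+ ℚ)
    (hl : ∀ c : Kˣ, R.valuation (c : K) = 1 → l (Additive.ofMul c) = 0)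
    {ι : Type} (y : ι → Ω) (hy : AlgebraicIndependent K y) :
    ∃ (A : ValuationSubring Ω) (z : Additive Ωˣ →+ ℚ),
      (∀ c : K, c ∈ R → algebraMap K Ω c ∈ A) ∧
      (∀ (c : Kˣ) (w : Ωˣ), (w : Ω) = algebraMap K Ω c →
        z (Additive.ofMul w) = l (Additive.ofMul c)) ∧
      (∀ w : Ωˣ, A.valuation (w : Ω) = 1 → z (Additive.ofMul w) = 0) ∧
      (∀ (i : ι) (w : Ωˣ), (w : Ω) = y i → z (Additive.ofMul w) = 0) := by
  classical
  let φ : MvPolynomial ι R →+* IsLocalRing.ResidueField R :=
    eval₂Hom (IsLocalRing.residue R) (fun _ => 1)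
  let P : Ideal (MvPolynomial ι R) := RingHom.ker φ
  have hP : P.IsPrime := RingHom.ker_isPrime φ
  let ψ : MvPolynomial ι R →+* Ω := eval₂Hom ((algebraMap K Ω).comp R.subtype) y
  have hψ : ∀ q, ψ q = 0 → q = 0 := by
    intro q hq
    have h1 : ψ q = aeval y (map R.subtype q) := by
      rw [aeval_def, eval₂_map]
      rfl
    rw [h1] at hq
    have h2 := (algebraicIndependent_iff.mp hy) _ hq
    exact map_injective R.subtype Subtype.val_injective (by rw [h2, map_zero])
  let f : Localization.AtPrime P →+* Ω := IsLocalization.lift (M := P.primeCompl) (g := ψ) (by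
    intro q
    refine isUnit_iff_ne_zero.mpr fun h => ?_
    have := hψ _ h
    exact q.2 (by rw [this]; exact P.zero_mem))
  have hf : ∀ q, f (algebraMap _ _ q) = ψ q := fun q => IsLocalization.lift_eq _ q
  obtain ⟨A, hA, hloc⟩ := IsLocalRing.exists_factor_valuationRing (R := Localization.AtPrime P) f
  have hmem : ∀ q, ψ q ∈ A := fun q => by
    rw [← hf]
    exact hA _
  have hunit : ∀ q : MvPolynomial ι R, A.valuation (ψ q) = 1 ↔ q ∉ P := by
    intro q
    have hval : A.valuation (ψ q) = A.valuation ((f.codRestrict A.toSubring hA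
        (algebraMap _ _ q) : A) : Ω) := by
      show A.valuation (ψ q) = A.valuation (f (algebraMap _ _ q))
      rw [hf]
    rw [hval, ← A.valuation_eq_one_iff]
    constructor
    · intro hu
      have h1 := hloc.map_nonunit _ hu
      exact (IsLocalization.AtPrime.isUnit_to_map_iff _ P q).mp h1
    · intro hq
      exact ((IsLocalization.AtPrime.isUnit_to_map_iff _ P q).mpr hq).map _
  have hC' : ∀ c : R, ψ (C c) = algebraMap K Ω (c : K) := by
    intro c
    simp [ψ]
  have hC : ∀ c : R, A.valuation (algebraMap K Ω (c : K)) = 1 → R.valuation (c : K) = 1 := by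
    intro c hc
    rw [← hC', hunit] at hc
    have h2 : φ (C c) = IsLocalRing.residue R c := by
      simp [φ]
    have h3 : IsLocalRing.residue R c ≠ 0 := by
      intro h
      exact hc (by rw [← h2] at h; exact h)
    have h4 : IsUnit c := (IsLocalRing.residue_ne_zero_iff_isUnit c).mp h3
    exact (R.valuation_eq_one_iff c).mp h4
  have key : ∀ c : K, c ≠ 0 → A.valuation (algebraMap K Ω c) = 1 → R.valuation c = 1 := by
    intro c hc h1
    rcases R.mem_or_inv_mem c with hm | hm
    · exact hC ⟨c, hm⟩ h1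
    · have h2 := hC ⟨c⁻¹, hm⟩ (by
        show A.valuation (algebraMap K Ω c⁻¹) = 1
        rw [map_inv₀, map_inv₀, h1, inv_one])
      have h3 : R.valuation c⁻¹ = 1 := h2
      rw [map_inv₀] at h3
      exact inv_eq_one.mp h3
  -- the groups
  let U : AddSubgroup (Additive Ωˣ) := A.unitGroup.toAddSubgroup
  let κ : Additive Kˣ →+ Additive Ωˣ := (Units.map (algebraMap K Ω : K →* Ω)).toAdditive
  let κ' : Additive Kˣ →+ (Additive Ωˣ ⧸ U) := (QuotientAddGroup.mk' U).comp κ
  have hker : κ'.ker ≤ l.ker := by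
    intro c hc
    have h1 : κ c ∈ U := by
      have : (QuotientAddGroup.mk' U) (κ c) = 0 := hc
      exact (QuotientAddGroup.eq_zero_iff _).mp this
    have h2 : A.valuation (algebraMap K Ω ((Additive.toMul c : Kˣ) : K)) = 1 := h1
    exact hl _ (key _ (Units.ne_zero _) h2)
  let κ'' : (Additive Kˣ ⧸ κ'.ker) →+ (Additive Ωˣ ⧸ U) := QuotientAddGroup.kerLift κ'
  let l'' : (Additive Kˣ ⧸ κ'.ker) →+ ℚ := QuotientAddGroup.lift κ'.ker l hker
  obtain ⟨h, hh⟩ : ∃ h : (Additive Ωˣ ⧸ U) →+ ℚ, h.comp κ'' = l'' :=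
    Module.Baer.extension_property_addMonoidHom (M := Additive Kˣ ⧸ κ'.ker)
      (N := Additive Ωˣ ⧸ U) (Module.Baer.of_divisible ℚ) κ''
      (QuotientAddGroup.kerLift_injective κ') l''
  have hzero : ∀ w : Ωˣ, A.valuation (w : Ω) = 1 →
      h ((QuotientAddGroup.mk' U) (Additive.ofMul w)) = 0 := by
    intro w hw
    have : (QuotientAddGroup.mk' U) (Additive.ofMul w) = 0 :=
      (QuotientAddGroup.eq_zero_iff _).mpr hw
    rw [this, map_zero]
  refine ⟨A, h.comp (QuotientAddGroup.mk' U), ?_, ?_, hzero, ?_⟩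
  · intro c hc
    rw [← hC' ⟨c, hc⟩]
    exact hmem _
  · intro c w hw
    have hw' : w = Units.map (algebraMap K Ω : K →* Ω) c := by
      ext; simpa using hw
    have h1 : h (κ'' (QuotientAddGroup.mk (Additive.ofMul c))) =
        l'' (QuotientAddGroup.mk (Additive.ofMul c)) := DFunLike.congr_fun hh _
    have h2 : κ'' (QuotientAddGroup.mk (Additive.ofMul c)) =
        (QuotientAddGroup.mk' U) (Additive.ofMul w) := by
      rw [hw']; rfl
    rw [h2] at h1
    exact h1
  · intro i w hw
    refine hzero w ?_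
    have h1 : ψ (X i) = y i := by simp [ψ]
    rw [hw, ← h1, hunit]
    intro hmem
    have h2 : φ (X i) = 1 := by simp [φ]
    have h3 : φ (X i) = 0 := hmem
    rw [h2] at h3
    exact one_ne_zero h3

end Pool.Agent.Lib.MP_a325a5_ag.Unif
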