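import Pool.Agent.Lib.MP_a325a5_ag.Unif.Main
import Pool.Agent.Lib.MP_a325a5_ag.SUnit

/-! The uniform theorem for translates in the torus: assembly. -/

namespace Pool.Agent.Lib.MP_a325a5_ag.Unif

open MvPolynomial WithZero Pool.Agent.Lib.MP_a325a5_ag

universe u w z

theorem valMatrix_zpow {K : Type u} [Field K] {N n : ℕ} (v : Fin N → Valuation K ℤᵐ⁰)
    (g : Fin n → Kˣ) (m : ℤ) : valMatrix v (g ^ m) = fun i => (m : ℚ) * valMatrix v g i := by
  funext ⟨j, t⟩
  simp only [valMatrix, Pi.pow_apply]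
  rw [Units.val_zpow_eq_zpow_val, map_zpow₀, log_zpow, smul_eq_mul]
  push_cast
  ring

theorem valMatrix_mul {K : Type u} [Field K] {N n : ℕ} (v : Fin N → Valuation K ℤᵐ⁰)
    (g h : Fin n → Kˣ) : valMatrix v (g * h) = fun i => valMatrix v g i + valMatrix v h i := by
  funext ⟨j, t⟩
  simp only [valMatrix, Pi.mul_apply]
  rw [Units.val_mul, map_mul, log_mul]
  · push_cast
    rfl
  · exact (Valuation.ne_zero_iff _).mpr (Units.ne_zero _)
  · exact (Valuation.ne_zero_iff _).mpr (Units.ne_zero _)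

/-- A closed set of dimension at most `d` has projections of bounded degree. -/
theorem exists_projectionDegreeLE {Ω : Type w} [Field Ω] {n d : ℕ}
    (I : Ideal (MvPolynomial (Fin n) Ω))
    (hI : ringKrullDim (MvPolynomial (Fin n) Ω ⧸ I) ≤ d) : ∃ r, ProjectionDegreeLE I d r := by
  classical
  have hQ := fun S : {S : Finset (Fin n) // S.card = d + 1} =>
    exists_mem_of_krullDim_le I hI S.1 S.2
  choose Q hQ0 hQI using hQ
  refine ⟨∑ S, (Q S).totalDegree, fun S hS => ⟨Q ⟨S, hS⟩, hQ0 _, ?_, hQI _⟩⟩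
  exact Finset.single_le_sum (f := fun S => (Q S).totalDegree) (fun _ _ => Nat.zero_le _)
    (Finset.mem_univ (⟨S, hS⟩ : {S : Finset (Fin n) // S.card = d + 1}))

/-- Counting the exponents at which a polynomial in the valuations vanishes. -/
theorem count_zeros {K : Type u} [Field K] {N n s B : ℕ} (v : Fin N → Valuation K ℤᵐ⁰)
    (γ : Fin s → Kˣ) (hγ : LinearIndependent ℤ (fun j => fun i => log (v j (γ i : K))))
    (F : MvPolynomial (Fin N × Fin n) ℚ) (hF0 : F ≠ 0) (hFC : F.totalDegree ≤ B)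
    (h : Fin n → Kˣ) (S : Finset ℤ)
    (p : (Fin s × Fin n → ℤ) → Prop) [DecidablePred p]
    (hp : ∀ e, p e → eval (valMatrix v (h * fun t => ∏ i, γ i ^ e (i, t))) F = 0) :
    ((Fintype.piFinset fun _ : Fin s × Fin n => S).filter p).card * S.card ≤
      B * S.card ^ (s * n) := by
  classical
  let L : Fin N × Fin n → MvPolynomial (Fin s × Fin n) ℚ :=
    fun jt => ∑ i, C ((log (v jt.1 (γ i)) : ℤ) : ℚ) * X (i, jt.2)
  have hL : ∀ i, (L i).totalDegree ≤ 1 := by
    rintro ⟨j, t⟩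
    refine totalDegree_finsetSum_le fun i _ => ?_
    refine (totalDegree_mul _ _).trans ?_
    rw [totalDegree_C, totalDegree_X]
  have hP0 : aeval L (shift (valMatrix v h) F) ≠ 0 :=
    subst_ne_zero (fun j i => log (v j (γ i))) hγ _ (shift_ne_zero _ _ hF0)
  have hPd : (aeval L (shift (valMatrix v h) F)).totalDegree ≤ B :=
    (totalDegree_subst_le L hL _).trans ((totalDegree_shift_le _ _).trans hFC)
  have hW : ∀ e : Fin s × Fin n → ℤ, valMatrix v (fun t => ∏ i, γ i ^ e (i, t)) =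
      fun jt => eval (fun i => ((e i : ℤ) : ℚ)) (L jt) := by
    intro e
    funext ⟨j, t⟩
    simp only [L, valMatrix, map_sum, map_mul, eval_C, eval_X]
    have h3 : v j (((∏ i, γ i ^ e (i, t) : Kˣ)) : K) = ∏ i, v j (γ i) ^ e (i, t) := by
      rw [Units.coe_prod, map_prod]
      refine Finset.prod_congr rfl fun i _ => ?_
      rw [Units.val_zpow_eq_zpow_val, map_zpow₀]
    have h4 : ∀ S : Finset (Fin s), log (∏ i ∈ S, v j (γ i) ^ e (i, t)) =
        ∑ i ∈ S, e (i, t) * log (v j (γ i)) := by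
      intro S
      induction S using Finset.induction_on with
      | empty => simp
      | insert i S hi ih =>
        rw [Finset.prod_insert hi, Finset.sum_insert hi, log_mul, ih, log_zpow, smul_eq_mul]
        · exact zpow_ne_zero _ ((Valuation.ne_zero_iff _).mpr (Units.ne_zero _))
        · exact Finset.prod_ne_zero_iff.mpr fun k _ =>
            zpow_ne_zero _ ((Valuation.ne_zero_iff _).mpr (Units.ne_zero _))
    rw [h3, h4]
    push_cast
    exact Finset.sum_congr rfl fun i _ => mul_comm _ _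
  have h1 := card_zeros_grid_le (aeval L (shift (valMatrix v h) F)) hP0 S
  rw [Fintype.card_prod, Fintype.card_fin, Fintype.card_fin] at h1
  refine le_trans (Nat.mul_le_mul_right _ (Finset.card_le_card ?_))
    (h1.trans (Nat.mul_le_mul_right _ hPd))
  intro e he
  obtain ⟨he1, he2⟩ := Finset.mem_filter.mp he
  refine Finset.mem_filter.mpr ⟨he1, ?_⟩
  rw [eval_aeval_eq, eval_shift, ← hp e he2, valMatrix_mul, hW e]
  congr 2
  funext i
  exact add_comm _ _

/-- The data used in the main theorem. -/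
theorem exists_data (n d : ℕ) (hd : d < n) (r : ℕ) :
    ∃ (C : ℕ) (F₀ : MvPolynomial (Fin ((d + 1) * (n - d - 1) + 1) × Fin n) ℚ),
      F₀ ≠ 0 ∧ F₀.IsHomogeneous C ∧
      ∀ (K : Type u) (Ω : Type w) [Field K] [Field Ω] [Algebra K Ω]
        (v : Fin ((d + 1) * (n - d - 1) + 1) → Valuation K ℤᵐ⁰),
        (∀ I : Ideal (MvPolynomial (Fin n) Ω), UnitProjections v I d r → ∀ g : Fin n → Kˣ,
          eval (valMatrix v g) F₀ ≠ 0 → TranslateTypical.{u, w, z} v I g d) ∧
        ∀ I : Ideal (MvPolynomial (Fin n) Ω), ProjectionDegreeLE I d r →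
          (∃ F : MvPolynomial (Fin ((d + 1) * (n - d - 1) + 1) × Fin n) ℚ, F ≠ 0 ∧
            F.totalDegree ≤ C ∧ ∀ g : Fin n → Kˣ, eval (valMatrix v g) F ≠ 0 →
              TranslateTypical.{u, w, z} v I g d) ∧
          ∀ g h : Fin n → Kˣ, eval (valMatrix v g) F₀ ≠ 0 →
            {m : ℤ | ¬ TranslateTypical.{u, w, z} v I (h * g ^ m) d}.encard ≤ C := by
  classical
  obtain ⟨Δ, hΔ, k, H, hH0, hHh, hH⟩ := exists_universal (T := Ties n d r) hd rfl
    tieForm tieForm_ne_zero tieForm_supp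
  refine ⟨∑ δ, k δ, ∏ δ, H δ, Finset.prod_ne_zero_iff.mpr fun δ _ => hH0 δ,
    IsHomogeneous.prod _ _ _ fun δ _ => hHh δ, ?_⟩
  intro K Ω _ _ _ v
  constructor
  · intro I hI g hg
    choose Q hQ0 hQd hQI hQu using fun S : {S : Finset (Fin n) // S.card = d + 1} => hI S.1 S.2
    obtain ⟨κ, hκ0, hκ⟩ := exists_kappa.{u, w, z} (r := r) (Nat.succ_pos _) v I Q hQ0 hQd hQI
    obtain ⟨b, hb0, hb⟩ := hH κ
    by_contra hne
    obtain ⟨δ, hδ⟩ := hb _ (hκ g hne)
    rw [hb0 (hκ0 hQu)] at hδ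
    simp only [Pi.zero_apply, add_zero] at hδ
    apply hg
    rw [map_prod]
    exact Finset.prod_eq_zero (Finset.mem_univ δ) hδ
  · intro I hI
    choose Q hQ0 hQd hQI using fun S : {S : Finset (Fin n) // S.card = d + 1} => hI S.1 S.2
    obtain ⟨κ, hκ0, hκ⟩ := exists_kappa.{u, w, z} (r := r) (Nat.succ_pos _) v I Q hQ0 hQd hQI
    obtain ⟨b, hb0, hb⟩ := hH κ
    refine ⟨⟨∏ δ, shift (b δ) (H δ),
      Finset.prod_ne_zero_iff.mpr fun δ _ => shift_ne_zero _ _ (hH0 δ), ?_, ?_⟩, ?_⟩
    · refine (totalDegree_finsetProd _ _).trans (Finset.sum_le_sum fun δ _ => ?_)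
      exact (totalDegree_shift_le _ _).trans (hHh δ).totalDegree_le
    · intro g hg
      by_contra hne
      obtain ⟨δ, hδ⟩ := hb _ (hκ g hne)
      apply hg
      rw [map_prod]
      refine Finset.prod_eq_zero (Finset.mem_univ δ) ?_
      rw [eval_shift]
      exact hδ
    · intro g h hg
      have hg' : ∀ δ, eval (valMatrix v g) (H δ) ≠ 0 := by
        intro δ h
        apply hg
        rw [map_prod]
        exact Finset.prod_eq_zero (Finset.mem_univ δ) h
      refine le_trans (Set.encard_le_encard ?_) (encard_lines_le k H hHh (valMatrix v g) hg'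
        fun δ i => valMatrix v h i + b δ i)
      intro m hm
      obtain ⟨δ, hδ⟩ := hb _ (hκ _ hm)
      refine ⟨δ, ?_⟩
      rw [valMatrix_mul, valMatrix_zpow] at hδ
      rw [← hδ]
      congr 2
      funext i
      ring

end Pool.Agent.Lib.MP_a325a5_ag.Unif
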