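import Pool.Agent.Lib.MP_a325a5_ag.Hyper

/-! Homogeneous polynomials on affine lines, and translates of polynomials. -/

namespace Pool.Agent.Lib.MP_a325a5_ag.Unif

open MvPolynomial Pool.Agent.Lib.MP_a325a5_ag

/-- The degree and the leading coefficient of a product of affine linear polynomials. -/
theorem prod_affine {τ : Type} (W b : τ → ℚ) (d : τ → ℕ) (s : Finset τ) :
    (∏ i ∈ s, (Polynomial.C (W i) * Polynomial.X + Polynomial.C (b i)) ^ d i).natDegree ≤
        ∑ i ∈ s, d i ∧
      (∏ i ∈ s, (Polynomial.C (W i) * Polynomial.X + Polynomial.C (b i)) ^ d i).coeff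
        (∑ i ∈ s, d i) = ∏ i ∈ s, W i ^ d i := by
  classical
  induction s using Finset.induction_on with
  | empty => simp
  | insert a s ha ih =>
    have h1 : (Polynomial.C (W a) * Polynomial.X + Polynomial.C (b a)).natDegree ≤ 1 :=
      Polynomial.natDegree_linear_le
    have h2 : ((Polynomial.C (W a) * Polynomial.X + Polynomial.C (b a)) ^ d a).natDegree ≤ d a := by
      refine Polynomial.natDegree_pow_le.trans ?_
      calc d a * (Polynomial.C (W a) * Polynomial.X + Polynomial.C (b a)).natDegree ≤ d a * 1 :=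
            Nat.mul_le_mul_left _ h1
        _ = d a := mul_one _
    have h3 : ((Polynomial.C (W a) * Polynomial.X + Polynomial.C (b a)) ^ d a).coeff (d a) =
        W a ^ d a := by
      have h4 := Polynomial.coeff_pow_of_natDegree_le (m := d a) h1
      rw [mul_one] at h4
      rw [h4]
      simp [Polynomial.coeff_C]
    rw [Finset.prod_insert ha, Finset.sum_insert ha, Finset.prod_insert ha]
    refine ⟨Polynomial.natDegree_mul_le.trans (Nat.add_le_add h2 ih.1), ?_⟩
    rw [Polynomial.coeff_mul_add_eq_of_natDegree_le h2 ih.1, h3, ih.2]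

/-- A homogeneous polynomial restricted to an affine line. -/
theorem exists_line {τ : Type} (H : MvPolynomial τ ℚ) (k : ℕ) (hH : H.IsHomogeneous k)
    (W b : τ → ℚ) :
    ∃ R : Polynomial ℚ, R.natDegree ≤ k ∧ R.coeff k = eval W H ∧
      ∀ x : ℚ, R.eval x = eval (fun i => x * W i + b i) H := by
  classical
  refine ⟨∑ d ∈ H.support, Polynomial.C (H.coeff d) *
    ∏ i ∈ d.support, (Polynomial.C (W i) * Polynomial.X + Polynomial.C (b i)) ^ d i, ?_, ?_, ?_⟩
  · refine Polynomial.natDegree_sum_le_of_forall_le _ _ fun d hd => ?_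
    refine (Polynomial.natDegree_C_mul_le _ _).trans ?_
    refine (prod_affine W b d d.support).1.trans (le_of_eq ?_)
    exact (hH.degree_eq_sum_deg_support hd).symm
  · rw [Polynomial.finsetSum_coeff, eval_eq]
    refine Finset.sum_congr rfl fun d hd => ?_
    rw [Polynomial.coeff_C_mul]
    congr 1
    have h1 : k = ∑ i ∈ d.support, d i := hH.degree_eq_sum_deg_support hd
    rw [h1]
    exact (prod_affine W b d d.support).2
  · intro x
    rw [Polynomial.eval_finsetSum, eval_eq]
    refine Finset.sum_congr rfl fun d _ => ?_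
    rw [Polynomial.eval_mul, Polynomial.eval_C, Polynomial.eval_prod]
    congr 1
    refine Finset.prod_congr rfl fun i _ => ?_
    rw [Polynomial.eval_pow, Polynomial.eval_add, Polynomial.eval_mul, Polynomial.eval_C,
      Polynomial.eval_C, Polynomial.eval_X, mul_comm]

/-- Translate of a polynomial. -/
noncomputable def shift {τ : Type} (b : τ → ℚ) (H : MvPolynomial τ ℚ) : MvPolynomial τ ℚ :=
  aeval (fun i => X i + C (b i)) H

theorem eval_shift {τ : Type} (b : τ → ℚ) (H : MvPolynomial τ ℚ) (W : τ → ℚ) :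
    eval W (shift b H) = eval (fun i => W i + b i) H := by
  have h : (eval W).comp (aeval (R := ℚ) (fun i : τ => (X i : MvPolynomial τ ℚ) + C (b i)) :
      MvPolynomial τ ℚ →+* MvPolynomial τ ℚ) = eval (fun i => W i + b i) := by
    apply MvPolynomial.ringHom_ext
    · intro r
      simp
    · intro i
      simp
  exact DFunLike.congr_fun h H

theorem shift_ne_zero {τ : Type} (b : τ → ℚ) (H : MvPolynomial τ ℚ) (hH : H ≠ 0) :
    shift b H ≠ 0 := by
  intro h
  apply hH
  have h1 : (aeval (R := ℚ) (fun i : τ => (X i : MvPolynomial τ ℚ) - C (b i))).comp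
      (aeval (R := ℚ) (fun i : τ => (X i : MvPolynomial τ ℚ) + C (b i))) = AlgHom.id ℚ _ := by
    apply MvPolynomial.algHom_ext
    intro i
    simp
  have h2 := DFunLike.congr_fun h1 H
  rw [AlgHom.comp_apply, AlgHom.id_apply] at h2
  rw [← h2]
  show aeval _ (shift b H) = 0
  rw [h, map_zero]

theorem totalDegree_shift_le {τ : Type} (b : τ → ℚ) (H : MvPolynomial τ ℚ) :
    (shift b H).totalDegree ≤ H.totalDegree := by
  refine totalDegree_subst_le _ (fun i => ?_) H
  refine (totalDegree_add _ _).trans ?_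
  rw [totalDegree_X, totalDegree_C]
  exact le_refl _

theorem shift_zero {τ : Type} (H : MvPolynomial τ ℚ) : shift 0 H = H := by
  unfold shift
  simp

/-- Bound for the number of integers `m` such that one of finitely many homogeneous polynomials
vanishes at the point `m W + b`. -/
theorem encard_lines_le {τ Δ : Type} [Fintype Δ] (k : Δ → ℕ) (H : Δ → MvPolynomial τ ℚ)
    (hH : ∀ δ, (H δ).IsHomogeneous (k δ)) (W : τ → ℚ) (hW : ∀ δ, eval W (H δ) ≠ 0)
    (b : Δ → τ → ℚ) :
    {m : ℤ | ∃ δ, eval (fun i => (m : ℚ) * W i + b δ i) (H δ) = 0}.encard ≤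
      ((∑ δ, k δ : ℕ) : ℕ∞) := by
  classical
  choose R hR1 hR2 hR3 using fun δ => exists_line (H δ) (k δ) (hH δ) W (b δ)
  have hR0 : ∀ δ, R δ ≠ 0 := by
    intro δ h
    apply hW δ
    rw [← hR2 δ, h, Polynomial.coeff_zero]
  have hP0 : (∏ δ, R δ) ≠ 0 := Finset.prod_ne_zero_iff.mpr fun δ _ => hR0 δ
  have hPd : (∏ δ, R δ).natDegree ≤ ∑ δ, k δ :=
    (Polynomial.natDegree_prod_le _ _).trans (Finset.sum_le_sum fun δ _ => hR1 δ)
  have h1 : {m : ℤ | ∃ δ, eval (fun i => (m : ℚ) * W i + b δ i) (H δ) = 0} ⊆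
      (fun z : ℤ => (z : ℚ)) ⁻¹' ((∏ δ, R δ).roots.toFinset : Set ℚ) := by
    rintro m ⟨δ, hm⟩
    simp only [Set.mem_preimage, Finset.mem_coe, Multiset.mem_toFinset]
    rw [Polynomial.mem_roots hP0, Polynomial.IsRoot.def, Polynomial.eval_prod]
    exact Finset.prod_eq_zero (Finset.mem_univ δ) (by rw [hR3 δ]; exact hm)
  calc {m : ℤ | ∃ δ, eval (fun i => (m : ℚ) * W i + b δ i) (H δ) = 0}.encard
      ≤ ((fun z : ℤ => (z : ℚ)) ⁻¹' ((∏ δ, R δ).roots.toFinset : Set ℚ)).encard :=
        Set.encard_le_encard h1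
    _ = ((fun z : ℤ => (z : ℚ)) '' ((fun z : ℤ => (z : ℚ)) ⁻¹'
          ((∏ δ, R δ).roots.toFinset : Set ℚ))).encard :=
        (Function.Injective.encard_image Int.cast_injective _).symm
    _ ≤ ((∏ δ, R δ).roots.toFinset : Set ℚ).encard :=
        Set.encard_le_encard (Set.image_preimage_subset _ _)
    _ = ((∏ δ, R δ).roots.toFinset.card : ℕ∞) := Set.encard_coe_eq_coe_finsetCard _
    _ ≤ ((∑ δ, k δ : ℕ) : ℕ∞) := by
        have h2 : (∏ δ, R δ).roots.toFinset.card ≤ ∑ δ, k δ :=
          (Multiset.toFinset_card_le _).trans ((Polynomial.card_roots' _).trans hPd)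
        exact_mod_cast h2

end Pool.Agent.Lib.MP_a325a5_ag.Unif
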