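import Pool.Agent.Lib.MP_a325a5_ag.Unif.Line
import Pool.Agent.Lib.MP_a325a5_ag.RelDeg
import Pool.Agent.Lib.MP_a325a5_ag.Count

/-! The universal homogeneous polynomials. -/

namespace Pool.Agent.Lib.MP_a325a5_ag.Unif

open MvPolynomial Pool.Agent.Lib.MP_a325a5_ag

/-- An affine space on which each family of `d + 1` coordinates is dependent is parametrised by at
most `d` of the coordinates, and the linear part of the parametrisation does not depend on the
right hand sides of the equations. -/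
theorem exists_coords_uniform {n d : ℕ} (μ : {S : Finset (Fin n) // S.card = d + 1} → (Fin n → ℚ))
    (hμ : ∀ S, μ S ≠ 0)
    (hsupp : ∀ S : {S : Finset (Fin n) // S.card = d + 1}, ∀ t ∉ S.1, μ S t = 0) :
    ∃ (J : Finset (Fin n)) (M : Fin n → Fin n → ℚ), J.card ≤ d ∧
      ∀ κ : {S : Finset (Fin n) // S.card = d + 1} → ℚ, ∃ b : Fin n → ℚ, (κ = 0 → b = 0) ∧
      ∀ z : Fin n → ℚ, (∀ S, ∑ t, μ S t * z t = κ S) → ∀ t, z t = b t + ∑ a ∈ J, M t a * z a := by
  classical
  let L : Submodule ℚ (Fin n → ℚ) :=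
    { carrier := {z | ∀ S, ∑ t, μ S t * z t = 0}
      add_mem' := by
        intro a b ha hb S
        have := ha S
        have := hb S
        simp only [Pi.add_apply, mul_add, Finset.sum_add_distrib]
        simp_all
      zero_mem' := by intro S; simp
      smul_mem' := by
        intro c a ha S
        have h1 := ha S
        have : ∑ t, μ S t * (c • a) t = c * ∑ t, μ S t * a t := by
          rw [Finset.mul_sum]
          refine Finset.sum_congr rfl fun t _ => ?_
          simp only [Pi.smul_apply, smul_eq_mul]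
          ring
        rw [this, h1, mul_zero] }
  let w : Fin n → Module.Dual ℚ L := fun t => (LinearMap.proj t).comp L.subtype
  obtain ⟨s, hli, hs⟩ := exists_maximal_linearIndepOn ℚ w
  let J : Finset (Fin n) := s.toFinset
  have hJs : (J : Set (Fin n)) = s := by simp [J]
  have hmem : ∀ t, w t ∈ Submodule.span ℚ (w '' (J : Set (Fin n))) := by
    intro t
    rw [hJs]
    by_cases ht : t ∈ s
    · exact Submodule.subset_span ⟨t, ht, rfl⟩
    · obtain ⟨a, ha, ha'⟩ := hs t ht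
      have := Submodule.smul_mem _ a⁻¹ ha'
      rwa [smul_smul, inv_mul_cancel₀ ha, one_smul] at this
  have hcoef : ∀ t, ∃ c : Fin n → ℚ, w t = ∑ a ∈ J, c a • w a := by
    intro t
    obtain ⟨c, hc⟩ := (Submodule.mem_span_image_finset_iff_exists_fun ℚ).mp (hmem t)
    refine ⟨fun a => if h : a ∈ J then c ⟨a, h⟩ else 0, ?_⟩
    rw [← hc, ← Finset.sum_coe_sort J]
    refine Finset.sum_congr rfl fun a _ => ?_
    simp
  choose c hc using hcoef
  refine ⟨J, c, ?_, fun κ => ?_⟩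
  · by_contra hcard
    push Not at hcard
    obtain ⟨S, hSJ, hS⟩ := Finset.exists_subset_card_eq (Nat.succ_le_of_lt hcard)
    have hrel : ∑ t ∈ S, μ ⟨S, hS⟩ t • w t = 0 := by
      ext z
      have h1 := z.2 ⟨S, hS⟩
      simp only [LinearMap.coe_sum, Finset.sum_apply, LinearMap.smul_apply, smul_eq_mul,
        LinearMap.zero_apply]
      have h2 : ∑ t, μ ⟨S, hS⟩ t * (z : Fin n → ℚ) t = ∑ t ∈ S, μ ⟨S, hS⟩ t * (z : Fin n → ℚ) t := by
        refine (Finset.sum_subset (Finset.subset_univ S) fun t _ ht => ?_).symm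
        rw [hsupp ⟨S, hS⟩ t ht, zero_mul]
      rw [h2] at h1
      exact h1
    have hliS : LinearIndepOn ℚ w (S : Set (Fin n)) := hli.mono (by
      intro t ht
      rw [← hJs]
      exact hSJ ht)
    have hzero := linearIndepOn_finset_iff.mp hliS (μ ⟨S, hS⟩) hrel
    apply hμ ⟨S, hS⟩
    funext t
    by_cases ht : t ∈ S
    · exact hzero t ht
    · exact hsupp ⟨S, hS⟩ t ht
  · have hmain : ∀ z0 : Fin n → ℚ, (∀ S, ∑ t, μ S t * z0 t = κ S) →
        ∀ z : Fin n → ℚ, (∀ S, ∑ t, μ S t * z t = κ S) → ∀ t,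
          z t = (z0 t - ∑ a ∈ J, c t a * z0 a) + ∑ a ∈ J, c t a * z a := by
      intro z0 hz0 z hz t
      have hzL : (fun t => z t - z0 t) ∈ L := by
        intro S
        have h1 := hz S
        have h2 := hz0 S
        simp only [mul_sub, Finset.sum_sub_distrib, h1, h2, sub_self]
      have := DFunLike.congr_fun (hc t) ⟨_, hzL⟩
      simp only [LinearMap.coe_sum, Finset.sum_apply, LinearMap.smul_apply, smul_eq_mul] at this
      have h3 : z t - z0 t = ∑ a ∈ J, c t a * (z a - z0 a) := this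
      have h4 : ∑ a ∈ J, c t a * (z a - z0 a) = ∑ a ∈ J, c t a * z a - ∑ a ∈ J, c t a * z0 a := by
        rw [← Finset.sum_sub_distrib]
        exact Finset.sum_congr rfl fun a _ => by ring
      rw [h4] at h3
      linarith
    by_cases hκ : κ = 0
    · refine ⟨0, fun _ => rfl, fun z hz t => ?_⟩
      have h1 := hmain 0 (fun S => by simp [hκ]) z hz t
      simpa using h1
    · by_cases hne : ∃ z0 : Fin n → ℚ, ∀ S, ∑ t, μ S t * z0 t = κ S
      · obtain ⟨z0, hz0⟩ := hne
        exact ⟨_, fun h => (hκ h).elim, hmain z0 hz0⟩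
      · exact ⟨0, fun _ => rfl, fun z hz => (hne ⟨z, hz⟩).elim⟩

/-- Quadratic polynomials in too few variables whose image is stable under scaling satisfy a
homogeneous relation. -/
theorem exists_homog_relation {ι κ : Type} [Fintype ι] [Fintype κ]
    (hcard : Fintype.card κ < Fintype.card ι) (g : ι → MvPolynomial κ ℚ)
    (hg : ∀ i, (g i).totalDegree ≤ 2)
    (hscale : ∀ (m : ℤ) (pt : κ → ℚ), ∃ pt' : κ → ℚ, ∀ i, eval pt' (g i) = m * eval pt (g i)) :
    ∃ (k : ℕ) (H : MvPolynomial ι ℚ), H ≠ 0 ∧ H.IsHomogeneous k ∧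
      ∀ pt : κ → ℚ, eval (fun i => eval pt (g i)) H = 0 := by
  obtain ⟨F, hF0, hF, -⟩ := exists_relation_deg hcard g hg
  refine ⟨F.totalDegree, homogeneousComponent F.totalDegree F, top_ne_zero F hF0,
    homogeneousComponent_isHomogeneous _ _, fun pt => ?_⟩
  by_contra hne
  have h1 := encard_zeros_line_le F (fun i => eval pt (g i)) hne
  have h2 : {m : ℤ | eval (fun i => (m : ℚ) * eval pt (g i)) F = 0} = Set.univ := by
    ext m
    simp only [Set.mem_setOf_eq, Set.mem_univ, iff_true]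
    obtain ⟨pt', hpt'⟩ := hscale m pt
    have h3 : (fun i => (m : ℚ) * eval pt (g i)) = fun i => eval pt' (g i) := by
      funext i
      exact (hpt' i).symm
    rw [h3, ← eval_aeval_eq, hF, map_zero]
  rw [h2, Set.encard_univ, ENat.card_eq_top_of_infinite, top_le_iff] at h1
  exact ENat.coe_ne_top _ h1

/-- The universal polynomials for translates. -/
theorem exists_universal {n d N : ℕ} (hd : d < n) (hN : N = (d + 1) * (n - d - 1) + 1)
    {T : Type} [Finite T] (μ : T → {S : Finset (Fin n) // S.card = d + 1} → (Fin n → ℚ))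
    (hμ : ∀ τ S, μ τ S ≠ 0)
    (hsupp : ∀ τ, ∀ S : {S : Finset (Fin n) // S.card = d + 1}, ∀ t ∉ S.1, μ τ S t = 0) :
    ∃ (Δ : Type) (_ : Fintype Δ) (k : Δ → ℕ) (H : Δ → MvPolynomial (Fin N × Fin n) ℚ),
      (∀ δ, H δ ≠ 0) ∧ (∀ δ, (H δ).IsHomogeneous (k δ)) ∧
      ∀ κ : Fin N → T → {S : Finset (Fin n) // S.card = d + 1} → ℚ,
        ∃ b : Δ → Fin N × Fin n → ℚ, (κ = 0 → b = 0) ∧
        ∀ W : Fin N × Fin n → ℚ,
          (∃ Λ : Fin (d + 1) → (Fin n → ℤ), LinearIndependent ℤ Λ ∧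
            ∀ j, ∃ z : Fin n → ℚ, (∃ τ, ∀ S, ∑ t, μ τ S t * z t = κ j τ S) ∧
              ∀ i, ∑ t, (Λ i t : ℚ) * (W (j, t) + z t) = 0) →
          ∃ δ, eval (fun i => W i + b δ i) (H δ) = 0 := by
  classical
  choose J M hJ hb using fun τ => exists_coords_uniform (μ τ) (hμ τ) (hsupp τ)
  choose bb hbb0 hbb using hb
  let Δ : Type := {I : Finset (Fin n) // I.card = n - (d + 1)} × (Fin N → T)
  let κ : Δ → Type := fun δ =>
    ({t : Fin n // t ∉ δ.1.1} × {a : Fin n // a ∈ δ.1.1}) ⊕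
      ((Fin N × {a : Fin n // a ∈ δ.1.1}) ⊕ (Σ j : Fin N, {a : Fin n // a ∈ J (δ.2 j)}))
  let Z : (δ : Δ) → Fin N → Fin n → MvPolynomial (κ δ) ℚ := fun δ j t =>
    if h : t ∈ δ.1.1 then X (Sum.inr (Sum.inl (j, ⟨t, h⟩))) else
      ∑ a : {a : Fin n // a ∈ δ.1.1}, X (Sum.inl (⟨t, h⟩, a)) * X (Sum.inr (Sum.inl (j, a)))
  let Y : (δ : Δ) → (j : Fin N) → {a : Fin n // a ∈ J (δ.2 j)} → MvPolynomial (κ δ) ℚ :=
    fun δ j a => X (Sum.inr (Sum.inr
      (Sigma.mk (β := fun j => {a : Fin n // a ∈ J (δ.2 j)}) j a)))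
  let g : (δ : Δ) → Fin N × Fin n → MvPolynomial (κ δ) ℚ := fun δ jt =>
    Z δ jt.1 jt.2 - ∑ a : {a : Fin n // a ∈ J (δ.2 jt.1)},
        C (M (δ.2 jt.1) jt.2 a.1) * Y δ jt.1 a
  have hZdeg : ∀ δ j t, (Z δ j t).totalDegree ≤ 2 := by
    intro δ j t
    by_cases h : t ∈ δ.1.1
    · simp only [Z, h, dif_pos]
      rw [totalDegree_X]
      norm_num
    · simp only [Z, h, dif_neg, not_false_iff]
      refine totalDegree_finsetSum_le fun a _ => ?_
      refine (totalDegree_mul _ _).trans ?_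
      rw [totalDegree_X, totalDegree_X]
  have hgdeg : ∀ δ jt, (g δ jt).totalDegree ≤ 2 := by
    intro δ jt
    refine (totalDegree_sub _ _).trans (max_le (hZdeg _ _ _) ?_)
    refine totalDegree_finsetSum_le fun a _ => ?_
    refine (totalDegree_mul _ _).trans ?_
    rw [totalDegree_C, zero_add]
    simp only [Y]
    rw [totalDegree_X]
    norm_num
  have hscale : ∀ δ (m : ℤ) (pt : κ δ → ℚ), ∃ pt' : κ δ → ℚ, ∀ jt,
      eval pt' (g δ jt) = m * eval pt (g δ jt) := by
    intro δ m pt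
    refine ⟨Sum.elim (fun x => pt (Sum.inl x)) (fun x => m * pt (Sum.inr x)), fun jt => ?_⟩
    have hZ1 : ∀ j t, eval (Sum.elim (fun x => pt (Sum.inl x)) (fun x => m * pt (Sum.inr x)))
        (Z δ j t) = m * eval pt (Z δ j t) := by
      intro j t
      by_cases h : t ∈ δ.1.1
      · simp only [Z, h, dif_pos, eval_X, Sum.elim_inr]
      · simp only [Z, h, dif_neg, not_false_iff, map_sum, map_mul, eval_X, Sum.elim_inl,
          Sum.elim_inr, Finset.mul_sum]
        exact Finset.sum_congr rfl fun a _ => by ring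
    simp only [g, map_sub, map_sum, map_mul, eval_C, hZ1, Y, eval_X, Sum.elim_inr]
    rw [mul_sub, Finset.mul_sum]
    congr 1
    exact Finset.sum_congr rfl fun a _ => by ring
  have hrel : ∀ δ : Δ, ∃ (k : ℕ) (H : MvPolynomial (Fin N × Fin n) ℚ), H ≠ 0 ∧
      H.IsHomogeneous k ∧ ∀ pt : κ δ → ℚ, eval (fun i => eval pt (g δ i)) H = 0 := by
    intro δ
    refine exists_homog_relation ?_ (g δ) (hgdeg δ) (hscale δ)
    have h1 : Fintype.card (κ δ) = (n - (n - (d + 1))) * (n - (d + 1)) + (N * (n - (d + 1)) +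
        ∑ j : Fin N, (J (δ.2 j)).card) := by
      simp only [κ, Fintype.card_sum, Fintype.card_prod, Fintype.card_fin, Fintype.card_sigma,
        Fintype.card_coe, δ.1.2]
      congr 2
      rw [Fintype.card_subtype_compl, Fintype.card_fin, Fintype.card_coe, δ.1.2]
    have h2 : ∑ j : Fin N, (J (δ.2 j)).card ≤ N * d := by
      calc ∑ j : Fin N, (J (δ.2 j)).card ≤ ∑ _j : Fin N, d :=
            Finset.sum_le_sum fun j _ => hJ _
        _ = N * d := by simp
    rw [h1, Fintype.card_prod, Fintype.card_fin, Fintype.card_fin]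
    generalize hc : ∑ j : Fin N, (J (δ.2 j)).card = c at h2
    obtain ⟨e, he⟩ : ∃ e, n = d + 1 + e := ⟨n - (d + 1), by omega⟩
    have h3 : n - (d + 1) = e := by omega
    have h4 : n - e = d + 1 := by omega
    have h5 : n - d - 1 = e := by omega
    have h8 : (n - (n - (d + 1))) * (n - (d + 1)) + (N * (n - (d + 1)) + c) =
        (d + 1) * e + (N * e + c) := by
      rw [h3, h4]
    rw [h8]
    have h6 : N = (d + 1) * e + 1 := by rw [hN, h5]
    have h7 : N * n = N * d + N + N * e := by rw [he]; ring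
    rw [h7]
    omega
  choose k H hH0 hHh hH using hrel
  haveI : Fintype Δ := Fintype.ofFinite Δ
  refine ⟨Δ, inferInstance, k, H, hH0, hHh, fun κκ => ?_⟩
  refine ⟨fun δ jt => bb (δ.2 jt.1) (κκ jt.1 (δ.2 jt.1)) jt.2, ?_, ?_⟩
  · intro h0
    funext δ jt
    rw [hbb0 _ _ (by rw [h0]; rfl)]
    rfl
  rintro W ⟨Λ, hΛ, hz⟩
  choose z hz1 hz2 using hz
  choose τ hτ using hz1
  obtain ⟨I, P, hI, hP⟩ := exists_coords Λ hΛ
  let δ : Δ := ⟨⟨I, hI⟩, τ⟩
  refine ⟨δ, ?_⟩
  let pt : κ δ → ℚ := Sum.elim (fun ta => P ta.2.1 ta.1.1)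
    (Sum.elim (fun ja => W (ja.1, ja.2.1) + z ja.1 ja.2.1) (fun ja => z ja.1 ja.2.1))
  have hZ : ∀ j t, eval pt (Z δ j t) = W (j, t) + z j t := by
    intro j t
    by_cases h : t ∈ I
    · simp [Z, h, pt, δ]
    · have h1 := hP (fun t => W (j, t) + z j t) (hz2 j) t h
      have h2 : eval pt (Z δ j t) = ∑ a : {a : Fin n // a ∈ I}, P a.1 t * (W (j, a.1) + z j a.1) := by
        simp only [Z, δ, h, dif_neg, not_false_iff, map_sum, map_mul, eval_X, pt, Sum.elim_inl,
          Sum.elim_inr]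
      rw [h2, h1, ← Finset.sum_coe_sort I]
  have hg : ∀ jt : Fin N × Fin n, eval pt (g δ jt) =
      W jt + bb (δ.2 jt.1) (κκ jt.1 (δ.2 jt.1)) jt.2 := by
    rintro ⟨j, t⟩
    have h1 := hbb (τ j) (κκ j (τ j)) (z j) (hτ j) t
    rw [← Finset.sum_coe_sort (J (τ j))] at h1
    have h2 : ∀ a, eval pt (Y δ j a) = z j a.1 := by
      intro a
      simp [Y, pt, δ]
    simp only [g, map_sub, map_sum, map_mul, eval_C, h2, hZ]
    show W (j, t) + z j t - ∑ a : {a : Fin n // a ∈ J (τ j)}, M (τ j) t a.1 * z j a.1 =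
      W (j, t) + bb (τ j) (κκ j (τ j)) t
    linarith
  have h1 : (fun jt : Fin N × Fin n => W jt + bb (δ.2 jt.1) (κκ jt.1 (δ.2 jt.1)) jt.2) =
      fun jt => eval pt (g δ jt) := by
    funext jt
    exact (hg jt).symm
  show eval (fun jt : Fin N × Fin n => W jt + bb (δ.2 jt.1) (κκ jt.1 (δ.2 jt.1)) jt.2) (H δ) = 0
  rw [h1]
  exact hH δ pt

end Pool.Agent.Lib.MP_a325a5_ag.Unif
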