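import Pool.Agent.Lib.MP_a325a5_ag.Unif.Ext
import Pool.Agent.Lib.MP_a325a5_ag.Unif.Univ
import Pool.Agent.Lib.MP_a325a5_ag.Dim

/-! Translates with atypical subvarieties: the valuation matrix satisfies the incidence
conditions. -/

namespace Pool.Agent.Lib.MP_a325a5_ag.Unif

open MvPolynomial WithZero Pool.Agent.Lib.MP_a325a5_ag

universe u w z

/-- Choices of two different exponent vectors of degree at most `r` in each variable, for all sets
of `d + 1` variables. -/
abbrev Ties (n d r : ℕ) : Type := (S : {S : Finset (Fin n) // S.card = d + 1}) →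
  {mm : ({t // t ∈ S.1} → Fin (r + 1)) × ({t // t ∈ S.1} → Fin (r + 1)) // mm.1 ≠ mm.2}

/-- The difference of the two exponent vectors. -/
def tieForm {n d r : ℕ} (τ : Ties n d r) (S : {S : Finset (Fin n) // S.card = d + 1}) :
    Fin n → ℚ := fun t =>
  if h : t ∈ S.1 then (((τ S).1.1 ⟨t, h⟩ : ℕ) : ℚ) - (((τ S).1.2 ⟨t, h⟩ : ℕ) : ℚ) else 0

theorem tieForm_ne_zero {n d r : ℕ} (τ : Ties n d r)
    (S : {S : Finset (Fin n) // S.card = d + 1}) : tieForm τ S ≠ 0 := by
  intro h
  apply (τ S).2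
  funext ⟨t, ht⟩
  have h1 := congrFun h t
  simp only [tieForm, ht, dif_pos, Pi.zero_apply] at h1
  have h2 : (((τ S).1.1 ⟨t, ht⟩ : ℕ) : ℚ) = (((τ S).1.2 ⟨t, ht⟩ : ℕ) : ℚ) := by linarith
  exact Fin.ext (by exact_mod_cast h2)

theorem tieForm_supp {n d r : ℕ} (τ : Ties n d r)
    (S : {S : Finset (Fin n) // S.card = d + 1}) (t : Fin n) (ht : t ∉ S.1) :
    tieForm τ S t = 0 := by
  simp [tieForm, ht]

/-- The exponent vector as a finitely supported function. -/
noncomputable def expo {σ : Type} [Finite σ] {r : ℕ} (φ : σ → Fin (r + 1)) : σ →₀ ℕ :=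
  Finsupp.equivFunOnFinite.symm fun t => (φ t : ℕ)

/-- The exponent vector of a monomial of bounded degree. -/
def toFin {σ : Type} (r : ℕ) (m : σ →₀ ℕ) : σ → Fin (r + 1) := fun t => Fin.ofNat (r + 1) (m t)

theorem toFin_val {σ : Type} {Ω : Type w} [Field Ω] (Q : MvPolynomial σ Ω) {r : ℕ}
    (hQ : Q.totalDegree ≤ r) (m : σ →₀ ℕ) (hm : m ∈ Q.support) (t : σ) :
    (toFin r m t : ℕ) = m t := by
  have h3 := le_totalDegree hm
  have h4 : m t ≤ m.sum fun _ e => e := by
    by_cases h : t ∈ m.support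
    · exact Finset.single_le_sum (f := fun i => m i) (fun _ _ => Nat.zero_le _) h
    · rw [Finsupp.notMem_support_iff.mp h]
      exact Nat.zero_le _
  simp only [toFin, Fin.val_ofNat]
  exact Nat.mod_eq_of_lt (by omega)

theorem expo_toFin {σ : Type} [Finite σ] {Ω : Type w} [Field Ω] (Q : MvPolynomial σ Ω) {r : ℕ}
    (hQ : Q.totalDegree ≤ r) (m : σ →₀ ℕ) (hm : m ∈ Q.support) : expo (toFin r m) = m := by
  ext t
  exact toFin_val Q hQ m hm t

/-- The main lemma. -/
theorem exists_kappa {K : Type u} {Ω : Type w} [Field K] [Field Ω] [Algebra K Ω]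
    {n d N r : ℕ} (hN : 0 < N) (v : Fin N → Valuation K ℤᵐ⁰) (I : Ideal (MvPolynomial (Fin n) Ω))
    (Q : (S : {S : Finset (Fin n) // S.card = d + 1}) → MvPolynomial {t // t ∈ S.1} Ω)
    (hQ0 : ∀ S, Q S ≠ 0) (hQd : ∀ S, (Q S).totalDegree ≤ r)
    (hQI : ∀ S, rename Subtype.val (Q S) ∈ I) :
    ∃ κ : Fin N → Ties n d r → {S : Finset (Fin n) // S.card = d + 1} → ℚ,
      ((∀ S, ∀ m ∈ (Q S).support, UnitAbove v ((Q S).coeff m)) → κ = 0) ∧
      ∀ g : Fin n → Kˣ, ¬ TranslateTypical.{u, w, z} v I g d →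
        ∃ Λ : Fin (d + 1) → (Fin n → ℤ), LinearIndependent ℤ Λ ∧
          ∀ j, ∃ z : Fin n → ℚ, (∃ τ, ∀ S, ∑ t, tieForm τ S t * z t = κ j τ S) ∧
            ∀ i, ∑ t, (Λ i t : ℚ) * (valMatrix v g (j, t) + z t) = 0 := by
  classical
  have hl := fun j => exists_log (v j)
  choose l hl1 hl2 using hl
  have hz := fun j => exists_extend' (Ω := Ω) (v j).valuationSubring (l j) (hl2 j)
    (fun i : Empty => i.elim) (by
      rw [algebraicIndependent_empty_type_iff]
      exact (algebraMap K Ω).injective)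
  choose A z hA hz1 hz2 _ using hz
  have hA' : ∀ j (c : K), v j c ≤ 1 → algebraMap K Ω c ∈ A j := fun j c hc => hA j c hc
  let co : (j : Fin N) → (S : {S : Finset (Fin n) // S.card = d + 1}) →
      ({t // t ∈ S.1} → Fin (r + 1)) → ℚ := fun j S φ =>
    if h : expo φ ∈ (Q S).support then
      z j (Additive.ofMul (Units.mk0 ((Q S).coeff (expo φ)) (mem_support_iff.mp h))) else 0
  refine ⟨fun j τ S => co j S (τ S).1.2 - co j S (τ S).1.1, ?_, ?_⟩
  · intro hunit
    have hco : ∀ j S φ, co j S φ = 0 := by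
      intro j S φ
      by_cases h : expo φ ∈ (Q S).support
      · simp only [co, h, dif_pos]
        exact hz2 j _ ((hunit S _ h).valuation_eq_one j (A j) (hA' j))
      · simp only [co, h, dif_neg, not_false_iff]
    funext j τ S
    show co j S (τ S).1.2 - co j S (τ S).1.1 = 0
    rw [hco, hco, sub_zero]
  intro g hg
  by_contra hcontra
  apply hg
  intro E _ _ _ _ x y hx hy' S h Λ hS hΛ hfin
  have hy : ∀ t, (y t : E) = algebraMap Ω E (algebraMap K Ω (g t)) * x t := by
    intro t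
    rw [hy' t, IsScalarTower.algebraMap_apply K Ω E]
  by_contra hcon
  apply hcontra
  -- pass to the algebraic closure of `Ω` in `E`
  have hSalg := hS.algebraicClosure
  have halg : ∀ i, ((∏ t, y t ^ (Λ i t) : Eˣ) : E) ∈ algebraicClosure Ω E := by
    intro i
    rw [mem_algebraicClosure_iff]
    have h1 : IsAlgebraic K ((∏ t, y t ^ (Λ i t) : Eˣ) : E) :=
      ((hfin i).2 ⟨0, hN⟩).1.isAlgebraic
    exact h1.extendScalars (algebraMap K Ω).injective
  obtain ⟨Λ', hΛ', hzero⟩ := exists_forms (Ω := algebraicClosure Ω E) (k := d + 1) y S hSalg Λ hΛ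
    (fun i => by
      have h0 : (⟨((∏ t, y t ^ (Λ i t) : Eˣ) : E), halg i⟩ : algebraicClosure Ω E) ≠ 0 := by
        intro h0
        exact (∏ t, y t ^ (Λ i t) : Eˣ).ne_zero (congrArg Subtype.val h0)
      refine ⟨1, Units.mk0 _ h0, Nat.one_pos, ?_⟩
      rw [pow_one]
      ext
      rfl) (by omega)
  have hg0 : ∀ t, algebraMap K Ω (g t) ≠ 0 := by
    intro t h
    have := hy t
    rw [h, map_zero, zero_mul] at this
    exact (y t).ne_zero this
  refine ⟨Λ', hΛ', fun j => ?_⟩
  obtain ⟨A2, z2, hA2, h21, h22, h23⟩ := exists_extend' (A j) (z j) (hz2 j) _ hS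
  have hA2' : ∀ c : K, v j c ≤ 1 → algebraMap K E c ∈ A2 := by
    intro c hc
    rw [IsScalarTower.algebraMap_apply K Ω E]
    exact hA2 _ (hA' j c hc)
  refine ⟨fun t => z2 (Additive.ofMul (x t)), ?_, ?_⟩
  · -- ties
    have htie : ∀ S : {S : Finset (Fin n) // S.card = d + 1},
        ∃ mm : {mm : ({t // t ∈ S.1} → Fin (r + 1)) × ({t // t ∈ S.1} → Fin (r + 1)) //
            mm.1 ≠ mm.2},
          co j S mm.1.1 + ∑ t : {t // t ∈ S.1}, ((mm.1.1 t : ℕ) : ℚ) * z2 (Additive.ofMul (x t)) =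
          co j S mm.1.2 + ∑ t : {t // t ∈ S.1}, ((mm.1.2 t : ℕ) : ℚ) * z2 (Additive.ofMul (x t)) := by
      intro S
      have hne : (Finset.univ : Finset {m // m ∈ (Q S).support}).Nonempty := by
        obtain ⟨m, hm⟩ := Finset.nonempty_iff_ne_empty.mpr
          (fun h => hQ0 S (MvPolynomial.support_eq_empty.mp h))
        exact ⟨⟨m, hm⟩, Finset.mem_univ _⟩
      let cu : {m // m ∈ (Q S).support} → Ωˣ := fun m =>
        Units.mk0 ((Q S).coeff m.1) (mem_support_iff.mp m.2)
      let co' : {m // m ∈ (Q S).support} → Eˣ := fun m =>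
        Units.map (algebraMap Ω E : Ω →* E) (cu m)
      have hsum : ∑ m : {m // m ∈ (Q S).support},
          ((co' m * ∏ t : {t // t ∈ S.1}, x t ^ (m.1 t) : Eˣ) : E) = 0 := by
        have h1 := hx _ (hQI S)
        rw [aeval_rename, aeval_def, eval₂_eq', ← Finset.sum_coe_sort (Q S).support] at h1
        rw [← h1]
        refine Finset.sum_congr rfl fun m _ => ?_
        rw [Units.val_mul, Units.coe_prod]
        simp only [Units.val_pow_eq_pow_val, Function.comp]
        rfl
      obtain ⟨a, -, c, -, hac, hv⟩ := exists_tie A2 z2 h22 Finset.univ hne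
        (fun m : {m // m ∈ (Q S).support} => co' m * ∏ t : {t // t ∈ S.1}, x t ^ (m.1 t)) hsum
      have hval : ∀ m : {m // m ∈ (Q S).support}, z2 (Additive.ofMul
          (co' m * ∏ t : {t // t ∈ S.1}, x t ^ (m.1 t))) = co j S (toFin r m.1) +
            ∑ t : {t // t ∈ S.1}, ((toFin r m.1 t : ℕ) : ℚ) * z2 (Additive.ofMul (x t)) := by
        intro m
        rw [ofMul_mul, map_add, ofMul_prod, map_sum, h21 (cu m) (co' m) rfl]
        congr 1
        · have h1 : expo (toFin r m.1) = m.1 := expo_toFin (Q S) (hQd S) m.1 m.2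
          have h2 : expo (toFin r m.1) ∈ (Q S).support := by rw [h1]; exact m.2
          simp only [co, h2, dif_pos]
          congr 2
          ext
          show (Q S).coeff m.1 = (Q S).coeff (expo (toFin r m.1))
          rw [h1]
        · refine Finset.sum_congr rfl fun t _ => ?_
          rw [ofMul_pow, map_nsmul, nsmul_eq_mul, toFin_val (Q S) (hQd S) m.1 m.2]
      rw [hval, hval] at hv
      refine ⟨⟨(toFin r a.1, toFin r c.1), ?_⟩, hv⟩
      intro heq
      apply hac
      apply Subtype.ext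
      rw [← expo_toFin (Q S) (hQd S) a.1 a.2, ← expo_toFin (Q S) (hQd S) c.1 c.2]
      exact congrArg expo heq
    choose τ hτ using htie
    refine ⟨τ, fun S => ?_⟩
    have h1 := hτ S
    have h2 : ∑ t, tieForm τ S t * z2 (Additive.ofMul (x t)) = ∑ t : {t // t ∈ S.1},
        ((((τ S).1.1 t : ℕ) : ℚ) - (((τ S).1.2 t : ℕ) : ℚ)) * z2 (Additive.ofMul (x t)) := by
      have h3 : ∑ t, tieForm τ S t * z2 (Additive.ofMul (x t)) =
          ∑ t ∈ S.1, tieForm τ S t * z2 (Additive.ofMul (x t)) := by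
        refine (Finset.sum_subset (Finset.subset_univ S.1) fun t _ ht => ?_).symm
        rw [tieForm_supp τ S t ht, zero_mul]
      rw [h3, ← Finset.sum_coe_sort S.1]
      refine Finset.sum_congr rfl fun t _ => ?_
      have : tieForm τ S t.1 = (((τ S).1.1 t : ℕ) : ℚ) - (((τ S).1.2 t : ℕ) : ℚ) := by
        simp [tieForm]
      rw [this]
    show ∑ t, tieForm τ S t * z2 (Additive.ofMul (x t)) = co j S (τ S).1.2 - co j S (τ S).1.1
    rw [h2]
    simp only [sub_mul, Finset.sum_sub_distrib]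
    linarith
  · intro k
    have h1 : ∀ t, z2 (Additive.ofMul (y t)) =
        valMatrix v g (j, t) + z2 (Additive.ofMul (x t)) := by
      intro t
      have hE : algebraMap Ω E (algebraMap K Ω (g t)) ≠ 0 := by
        intro h
        exact hg0 t ((map_eq_zero _).mp h)
      have h2 : y t = Units.mk0 _ hE * x t := by
        ext
        simpa using hy t
      rw [h2, ofMul_mul, map_add, h21 (Units.mk0 _ (hg0 t)) (Units.mk0 _ hE) rfl,
        hz1 j (g t) (Units.mk0 _ (hg0 t)) rfl, hl1]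
      rfl
    have h3 := hzero z2 (fun t ht => h23 ⟨t, ht⟩ (y t) rfl)
      (fun i => h22 _ ((hfin i).valuation_eq_one j A2 hA2')) k
    rw [← h3]
    refine Finset.sum_congr rfl fun t _ => ?_
    rw [h1 t]

end Pool.Agent.Lib.MP_a325a5_ag.Unif
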